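import Pool.Agent.helper36.PT.Spec

/-! # Row pt:FST: the first moment of the sifted weights -/

set_option autoImplicit false

namespace Pool.Agent.PT

open Finset Pool.Agent.helper71.AA

/-- the tail of the sum of the inverse squares, positive part -/
theorem FST_pos (Y : ℝ) (hY : 1 ≤ Y) (s : Finset ℕ) (hs : ∀ i ∈ s, Y < (i : ℝ)) :
    ∑ i ∈ s, ((i : ℝ) ^ 2)⁻¹ ≤ 2 / Y := by
  have hsub : s ⊆ Ioo ⌊Y⌋₊ (s.sup id + 1) := by
    intro i hi
    rw [mem_Ioo]
    refine ⟨?_, ?_⟩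
    · have h1 := hs i hi
      exact (Nat.floor_lt (by linarith)).2 h1
    · have h2 : i ≤ s.sup id := Finset.le_sup (f := id) hi
      omega
  have h1 : ∑ i ∈ s, ((i : ℝ) ^ 2)⁻¹ ≤ ∑ i ∈ Ioo ⌊Y⌋₊ (s.sup id + 1), ((i : ℝ) ^ 2)⁻¹ :=
    sum_le_sum_of_subset_of_nonneg hsub (fun i _ _ => by positivity)
  have h2 := sum_Ioo_inv_sq_le (α := ℝ) ⌊Y⌋₊ (s.sup id + 1)
  have h3 : Y ≤ (⌊Y⌋₊ : ℝ) + 1 := (Nat.lt_floor_add_one Y).le
  have h4 : (2 : ℝ) / ((⌊Y⌋₊ : ℝ) + 1) ≤ 2 / Y := by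
    apply div_le_div_of_nonneg_left (by norm_num) (by linarith) h3
  linarith

/-- the tail of the sum of the inverse squares -/
theorem FST_tail (Y : ℝ) (hY : 1 ≤ Y) (s : Finset ℤ) :
    ∑ a ∈ s, (if Y < |(a : ℝ)| then 1 / (a : ℝ) ^ 2 else 0) ≤ 4 / Y := by
  rw [← sum_filter]
  have hsplit := sum_filter_add_sum_filter_not (s.filter fun a : ℤ => Y < |(a : ℝ)|)
    (fun a : ℤ => 0 < a) (fun a : ℤ => 1 / (a : ℝ) ^ 2)
  rw [← hsplit]
  have key : ∀ t : Finset ℤ, (∀ a ∈ t, Y < |(a : ℝ)|) → (∀ a ∈ t, ∀ b ∈ t, a.natAbs = b.natAbs → a = b) →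
      ∑ a ∈ t, 1 / (a : ℝ) ^ 2 ≤ 2 / Y := by
    intro t ht hinj
    have h1 : ∑ a ∈ t, 1 / (a : ℝ) ^ 2 = ∑ i ∈ t.image Int.natAbs, ((i : ℝ) ^ 2)⁻¹ := by
      rw [sum_image (fun a ha b hb h => hinj a ha b hb h)]
      refine sum_congr rfl fun a _ => ?_
      rw [one_div]
      have e1 : ((a.natAbs : ℕ) : ℝ) = |(a : ℝ)| := by
        rw [← Int.cast_abs, Int.abs_eq_natAbs]
        simp
      rw [e1, sq_abs]
    rw [h1]
    refine FST_pos Y hY _ ?_
    intro i hi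
    obtain ⟨a, ha, rfl⟩ := mem_image.1 hi
    have e1 : ((a.natAbs : ℕ) : ℝ) = |(a : ℝ)| := by
      rw [← Int.cast_abs, Int.abs_eq_natAbs]
      simp
    rw [e1]
    exact ht a ha
  have h1 := key ((s.filter fun a : ℤ => Y < |(a : ℝ)|).filter fun a : ℤ => 0 < a)
    (fun a ha => (mem_filter.1 (mem_filter.1 ha).1).2) (fun a ha b hb h => by
      have h1 := (mem_filter.1 ha).2
      have h2 := (mem_filter.1 hb).2
      omega)
  have h2 := key ((s.filter fun a : ℤ => Y < |(a : ℝ)|).filter fun a : ℤ => ¬ 0 < a)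
    (fun a ha => (mem_filter.1 (mem_filter.1 ha).1).2) (fun a ha b hb h => by
      have h1 := (mem_filter.1 ha).2
      have h2 := (mem_filter.1 hb).2
      omega)
  have h3 : (4 : ℝ) / Y = 2 / Y + 2 / Y := by ring
  rw [h3]
  exact add_le_add h1 h2

/-- the weighted sum over `|a| > X ^ 2` -/
theorem FST_EN_tail (W : ℕ) (a₀ : ℤ) (X B : ℝ) (hX : 1 ≤ X) (hB : 0 ≤ B) (F : ℤ → ℝ)
    (hF : Bd F) (h0 : ∀ a, 0 ≤ F a) (h1 : ∀ a, F a ≤ B) :
    EN W a₀ (2 * X) (fun a => if X ^ 2 < |(a : ℝ)| then F a else 0) ≤ 2 * B := by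
  have hbd : Bd (fun a : ℤ => if X ^ 2 < |(a : ℝ)| then F a else 0) := hF.of_le fun a => by
    split_ifs
    · exact le_rfl
    · rw [abs_zero]
      exact abs_nonneg _
  unfold EN
  refine (hbd.summable W a₀ (2 * X) (by linarith)).tsum_le_of_sum_le fun s => ?_
  have hpi := Real.pi_gt_three
  have hstep : ∀ a ∈ s, (if (W : ℤ) ∣ a - a₀ then Fz (2 * X) a *
      (if X ^ 2 < |(a : ℝ)| then F a else 0) else 0) ≤
      ((2 * X) ^ 2 / Real.pi ^ 2 * B) * (if X ^ 2 < |(a : ℝ)| then 1 / (a : ℝ) ^ 2 else 0) := by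
    intro a _
    have hnn : 0 ≤ ((2 * X) ^ 2 / Real.pi ^ 2 * B) * (if X ^ 2 < |(a : ℝ)| then 1 / (a : ℝ) ^ 2 else 0) := by
      apply mul_nonneg (by positivity)
      split_ifs
      · positivity
      · exact le_rfl
    by_cases hW : (W : ℤ) ∣ a - a₀
    · rw [if_pos hW]
      by_cases ha : X ^ 2 < |(a : ℝ)|
      · rw [if_pos ha, if_pos ha]
        have ha0 : a ≠ 0 := by
          rintro rfl
          simp at ha
          nlinarith [sq_nonneg X]
        have h2 := Fz_le_sq (2 * X) (by linarith) a ha0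
        calc Fz (2 * X) a * F a ≤ ((2 * X) ^ 2 / Real.pi ^ 2 * (1 / (a : ℝ) ^ 2)) * B :=
              mul_le_mul h2 (h1 a) (h0 a) (by positivity)
          _ = _ := by ring
      · rw [if_neg ha, if_neg ha, mul_zero, mul_zero]
    · rw [if_neg hW]
      exact hnn
  refine (sum_le_sum hstep).trans ?_
  rw [← mul_sum]
  have h3 := FST_tail (X ^ 2) (by nlinarith) s
  have h4 : ((2 * X) ^ 2 / Real.pi ^ 2 * B) * ∑ a ∈ s, (if X ^ 2 < |(a : ℝ)| then 1 / (a : ℝ) ^ 2 else 0) ≤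
      ((2 * X) ^ 2 / Real.pi ^ 2 * B) * (4 / X ^ 2) :=
    mul_le_mul_of_nonneg_left h3 (by positivity)
  refine h4.trans ?_
  have hX0 : X ≠ 0 := by positivity
  have h5 : ((2 * X) ^ 2 / Real.pi ^ 2 * B) * (4 / X ^ 2) = B * (16 / Real.pi ^ 2) := by
    field_simp
    ring
  rw [h5]
  have h6 : (16 : ℝ) / Real.pi ^ 2 ≤ 2 := by
    rw [div_le_iff₀ (by positivity)]
    nlinarith
  nlinarith

theorem FST_az_sub (Q : Finset ℕ) (p : ℕ) (hp : p.Prime) (a : ℤ) : Az Q p a ⊆ Q.erase p := by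
  intro l hl
  have h := mem_filter.1 hl
  refine mem_erase.2 ⟨?_, h.1⟩
  rintro rfl
  have h1 : (l : ℤ) ∣ a * (l : ℤ) ^ 2 := ⟨a * l, by ring⟩
  have h2 : (l : ℤ) ∣ 1 := by
    have h3 := dvd_sub h1 h.2
    have e : a * (l : ℤ) ^ 2 - (a * (l : ℤ) ^ 2 - 1) = 1 := by ring
    rwa [e] at h3
  have h3 := Int.natAbs_dvd_natAbs.2 h2
  simp at h3
  exact hp.one_lt.ne' h3

/-- the number of sets of primes with product at most `y` -/
theorem FST_count (S : Finset (Finset ℕ)) (y : ℝ) (hy : 0 ≤ y) (h1 : ∀ D ∈ S, ∀ l ∈ D, l.Prime)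
    (h2 : ∀ D ∈ S, pr D ≤ y) : (S.card : ℝ) ≤ y := by
  have hcast : ∀ D : Finset ℕ, ((∏ l ∈ D, l : ℕ) : ℝ) = pr D := by
    intro D
    unfold pr
    push_cast
    rfl
  have hinj : Set.InjOn (fun D : Finset ℕ => ∏ l ∈ D, l) (S : Set (Finset ℕ)) := by
    intro D hD D' hD' h
    have h3 := congrArg Nat.primeFactors h
    simp only at h3
    rwa [Nat.primeFactors_prod (h1 D hD), Nat.primeFactors_prod (h1 D' hD')] at h3
  have hmap : ∀ D ∈ S, (∏ l ∈ D, l) ∈ Icc 1 ⌊y⌋₊ := by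
    intro D hD
    rw [mem_Icc]
    refine ⟨Nat.one_le_iff_ne_zero.2 (prod_ne_zero_iff.2 fun l hl => (h1 D hD l hl).ne_zero), ?_⟩
    rw [Nat.le_floor_iff hy, hcast]
    exact h2 D hD
  have h3 := card_le_card_of_injOn (fun D : Finset ℕ => ∏ l ∈ D, l) hmap hinj
  rw [Nat.card_Icc] at h3
  have h4 : S.card ≤ ⌊y⌋₊ := by omega
  exact (Nat.cast_le.2 h4).trans (Nat.floor_le hy)

theorem FST (h1 : UBL_stmt) (h2 : FMO_stmt) (h3 : LRG_stmt) (h4 : GPR_stmt) (h5 : CFW_stmt) :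
    FST_stmt := by
  classical
  intro eps heps
  have he1 : 0 < min (eps / 100) (1 / 2) := by positivity
  obtain ⟨η₁, hη₁, hU⟩ := h1 (min (eps / 100) (1 / 2)) he1
  refine ⟨min η₁ (1 / 10), by positivity, fun η hη hηle => ?_⟩
  have hη1 : η ≤ η₁ := hηle.trans (min_le_left _ _)
  have hη2 : η ≤ 1 / 10 := hηle.trans (min_le_right _ _)
  obtain ⟨X₁, hX₁⟩ := hU η hη hη1
  refine ⟨max 10 ⌈200 / eps⌉₊, fun w hw => ?_⟩
  have hw10 : 10 ≤ w := (le_max_left _ _).trans hw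
  have hwe : 200 / eps ≤ (w : ℝ) := (Nat.le_ceil _).trans (by exact_mod_cast (le_max_right _ _).trans hw)
  obtain ⟨X₂, hX₂⟩ := h2 w hw10 η hη hη2
  obtain ⟨X₃, hX₃⟩ := h3 η hη hη2
  obtain ⟨X₄, hX₄⟩ := h5 w (by omega) η hη hη2
  have hWpos : (0 : ℝ) < (primorial w : ℝ) := by exact_mod_cast primorial_pos w
  -- growth conditions
  have hA : ∀ᶠ X : ℝ in Filter.atTop, X ^ (-(η / 2)) ≤ min η (eps * η / 10) := by
    have ht : Filter.Tendsto (fun X : ℝ => X ^ (-(η / 2))) Filter.atTop (nhds 0) :=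
      tendsto_rpow_neg_atTop (by positivity)
    exact ht.eventually (ge_mem_nhds (by positivity)) |>.mono fun X hX => hX
  have hB : ∀ᶠ X : ℝ in Filter.atTop, X ^ (-(0.4468 : ℝ)) ≤ eps * η / 10 / (primorial w : ℝ) := by
    have ht : Filter.Tendsto (fun X : ℝ => X ^ (-(0.4468 : ℝ))) Filter.atTop (nhds 0) :=
      tendsto_rpow_neg_atTop (by norm_num)
    exact ht.eventually (ge_mem_nhds (by positivity)) |>.mono fun X hX => hX
  obtain ⟨X₅, hX₅⟩ := Filter.eventually_atTop.1 (hA.and hB)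
  refine ⟨max 1 (max X₁ (max X₂ (max X₃ (max X₄ X₅)))), fun X hX => ?_⟩
  have hX1 : 1 ≤ X := (le_max_left _ _).trans hX
  have hXr := (le_max_right _ _).trans hX
  have hXX1 : X₁ ≤ X := (le_max_left _ _).trans hXr
  have hXr2 := (le_max_right _ _).trans hXr
  have hXX2 : X₂ ≤ X := (le_max_left _ _).trans hXr2
  have hXr3 := (le_max_right _ _).trans hXr2
  have hXX3 : X₃ ≤ X := (le_max_left _ _).trans hXr3
  have hXr4 := (le_max_right _ _).trans hXr3
  have hXX4 : X₄ ≤ X := (le_max_left _ _).trans hXr4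
  have hXX5 : X₅ ≤ X := (le_max_right _ _).trans hXr4
  obtain ⟨hgA, hgB⟩ := hX₅ X hXX5
  have hX0 : 0 < X := by linarith
  intro p hp hwp hpX a₀ ξ hξ hV0 hV20
  -- facts
  have hpXX : (p : ℝ) ≤ X := by
    refine hpX.trans ?_
    calc X ^ (0.0001 : ℝ) ≤ X ^ (1 : ℝ) := Real.rpow_le_rpow_of_exponent_le hX1 (by norm_num)
      _ = X := Real.rpow_one X
  have hp2 : 10 < p := by omega
  have h2X : ((2 : ℕ) : ℝ) ≤ X := by
    have : ((2 : ℕ) : ℝ) ≤ (p : ℝ) := by exact_mod_cast (by omega : 2 ≤ p)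
    linarith
  obtain ⟨hL1, hL2, -⟩ := hX₃ X hXX3 ξ hξ p 2 hp Nat.prime_two (by omega) hpXX h2X
  have hR1 : 1 ≤ Rr X := Real.one_le_rpow hX1 (by norm_num)
  obtain ⟨hG1, hG2, hG3⟩ := h4 w ⌊X ^ η⌋₊ (by omega) (Qm w X η) (subset_refl _) (Rr X) p hR1 hwp
  have hUb := hX₁ X hXX1 w (by omega) p
  obtain ⟨hM1, hM2⟩ := hX₂ X hXX2 p hp hwp hpX a₀ ξ hξ
  obtain ⟨θ, -, -, hRep, hCof, hfw⟩ := hX₄ X hXX4 ξ hξ p
  -- the weights
  have hfw0 : ∀ a, 0 ≤ fw w X η ξ p a := fun a =>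
    mul_nonneg (sq_nonneg _) (hξ.nn _ (filter_subset _ _))
  have hfwBd : Bd (fw w X η ξ p) :=
    (Bd.az (Qm w X η) p (fun A => Sg ((Qm w X η).erase p) (Rr X) A ^ 2)).mul
      (Bd.az (Ql X η) p (U ξ))
  have hftBd : Bd (ft w X η ξ p) := hfwBd.of_le fun a => by
    unfold ft
    split_ifs
    · exact le_rfl
    · rw [abs_zero]
      exact abs_nonneg _
  have hgBd : ∀ g : ℕ, Bd (fun a => if g ∈ Az (Qm w X η) p a then fw w X η ξ p a else 0) := fun g =>
    hfwBd.of_le fun a => by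
      split_ifs
      · exact le_rfl
      · rw [abs_zero]
        exact abs_nonneg _
  have htBd : Bd (fun a : ℤ => if X ^ 2 < |(a : ℝ)| then fw w X η ξ p a else 0) :=
    hfwBd.of_le fun a => by
      split_ifs
      · exact le_rfl
      · rw [abs_zero]
        exact abs_nonneg _
  -- pointwise inequality
  have hpt : ∀ a, fw w X η ξ p a - ft w X η ξ p a ≤
      (∑ g ∈ (Qm w X η).erase p, (if g ∈ Az (Qm w X η) p a then fw w X η ξ p a else 0)) +
      (if X ^ 2 < |(a : ℝ)| then fw w X η ξ p a else 0) := by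
    intro a
    have hs0 : 0 ≤ ∑ g ∈ (Qm w X η).erase p, (if g ∈ Az (Qm w X η) p a then fw w X η ξ p a else 0) :=
      sum_nonneg fun g _ => by
        split_ifs
        · exact hfw0 a
        · exact le_rfl
    have ht0 : 0 ≤ (if X ^ 2 < |(a : ℝ)| then fw w X η ξ p a else 0) := by
      split_ifs
      · exact hfw0 a
      · exact le_rfl
    by_cases hc : Az (Qm w X η) p a = ∅ ∧ |(a : ℝ)| ≤ X ^ 2
    · have : ft w X η ξ p a = fw w X η ξ p a := by
        unfold ft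
        rw [if_pos hc]
      rw [this, sub_self]
      linarith
    · have e0 : ft w X η ξ p a = 0 := by
        unfold ft
        rw [if_neg hc]
      rw [e0, sub_zero]
      by_cases hl : X ^ 2 < |(a : ℝ)|
      · rw [if_pos hl]
        linarith
      · have hne : (Az (Qm w X η) p a).Nonempty := by
          rw [nonempty_iff_ne_empty]
          intro h
          exact hc ⟨h, not_lt.1 hl⟩
        obtain ⟨g, hg⟩ := hne
        have hg' := FST_az_sub _ p hp a hg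
        have h6 : (if g ∈ Az (Qm w X η) p a then fw w X η ξ p a else 0) ≤
            ∑ g ∈ (Qm w X η).erase p, (if g ∈ Az (Qm w X η) p a then fw w X η ξ p a else 0) :=
          single_le_sum (f := fun g => if g ∈ Az (Qm w X η) p a then fw w X η ξ p a else 0)
            (fun g _ => by
              split_ifs
              · exact hfw0 a
              · exact le_rfl) hg'
        rw [if_pos hg] at h6
        linarith
  -- EN version
  have h2X0 : 0 < 2 * X := by linarith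
  have hEN : EN (primorial w) a₀ (2 * X) (fw w X η ξ p) - EN (primorial w) a₀ (2 * X) (ft w X η ξ p) ≤
      (∑ g ∈ (Qm w X η).erase p, EN (primorial w) a₀ (2 * X)
        (fun a => if g ∈ Az (Qm w X η) p a then fw w X η ξ p a else 0)) +
      EN (primorial w) a₀ (2 * X) (fun a : ℤ => if X ^ 2 < |(a : ℝ)| then fw w X η ξ p a else 0) := by
    rw [← EN_sub hfwBd hftBd _ _ _ h2X0, ← EN_sum _ _ (fun g _ => hgBd g) _ _ _ h2X0,
      ← EN_add (Bd.sum _ _ (fun g _ => hgBd g)) htBd _ _ _ h2X0]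
    exact EN_mono (hfwBd.sub hftBd) ((Bd.sum _ _ (fun g _ => hgBd g)).add htBd) hpt _ _ _ h2X0
  -- the bound for fw
  have hfwB : ∀ a, fw w X η ξ p a ≤ X ^ (0.5532 : ℝ) := by
    intro a
    rw [hfw a, hRep _ (FST_az_sub _ p hp a)]
    have h6 : ∑ D ∈ (Az (Qm w X η ∪ Ql X η) p a).powerset, xp w X η ξ θ p D ≤
        ∑ D ∈ (Az (Qm w X η ∪ Ql X η) p a).powerset.filter (fun D => xp w X η ξ θ p D ≠ 0),
          X ^ (0.0001 : ℝ) := by
      rw [← sum_filter_ne_zero]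
      exact sum_le_sum fun D _ => (le_abs_self _).trans (hCof.bd D)
    refine h6.trans ?_
    rw [sum_const, nsmul_eq_mul]
    have h7 : (((Az (Qm w X η ∪ Ql X η) p a).powerset.filter
        (fun D => xp w X η ξ θ p D ≠ 0)).card : ℝ) ≤ X ^ (0.5531 : ℝ) := by
      apply FST_count _ _ (by positivity)
      · intro D hD l hl
        exact (hCof.pm D (mem_filter.1 hD).2 l hl).1
      · intro D hD
        exact hCof.le D (mem_filter.1 hD).2
    calc _ ≤ X ^ (0.5531 : ℝ) * X ^ (0.0001 : ℝ) := mul_le_mul_of_nonneg_right h7 (by positivity)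
      _ = X ^ (0.5532 : ℝ) := by
        rw [← Real.rpow_add hX0]
        norm_num
  have htail := FST_EN_tail (primorial w) a₀ X (X ^ (0.5532 : ℝ)) hX1 (by positivity)
    (fw w X η ξ p) hfwBd hfw0 hfwB
  -- the sum over g
  have hsumg : (∑ g ∈ (Qm w X η).erase p, EN (primorial w) a₀ (2 * X)
        (fun a => if g ∈ Az (Qm w X η) p a then fw w X η ξ p a else 0)) ≤
      2 * X / (primorial w : ℝ) * (min (eps / 100) (1 / 2) * Gs ((Qm w X η).erase p) (Rr X) *
        Vx ((Ql X η).erase p) ξ) := by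
    rw [sum_congr rfl hM2, ← mul_sum, ← sum_mul]
    apply mul_le_mul_of_nonneg_left _ (by positivity)
    exact mul_le_mul_of_nonneg_right hUb hL2
  -- conclusion
  have hgA1 : X ^ (-(η / 2)) ≤ η := hgA.trans (min_le_left _ _)
  have hgA2 : X ^ (-(η / 2)) ≤ eps * η / 10 := hgA.trans (min_le_right _ _)
  have hxn : 0 ≤ X ^ (-(η / 2)) := by positivity
  have hVp1 : Vx (Ql X η) ξ - eps * η / 10 ≤ Vx ((Ql X η).erase p) ξ := by
    have := (abs_le.1 hL1).1
    linarith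
  have hVp2 : Vx ((Ql X η).erase p) ξ ≤ 21 * η := by
    have := (abs_le.1 hL1).2
    linarith
  have hW2 : (2 : ℝ) / w ≤ eps / 100 := by
    have hw0 : (0 : ℝ) < w := by
      have : 0 < 200 / eps := by positivity
      linarith
    rw [div_le_iff₀ hw0]
    rw [div_le_iff₀ heps] at hwe
    linarith
  have hmain : Gs (Qm w X η) (Rr X) * (Vx (Ql X η) ξ - eps * η) + eps * η / 10 ≤
      Gs ((Qm w X η).erase p) (Rr X) * Vx ((Ql X η).erase p) ξ -
        min (eps / 100) (1 / 2) * Gs ((Qm w X η).erase p) (Rr X) * Vx ((Ql X η).erase p) ξ := by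
    set G := Gs (Qm w X η) (Rr X) with hG
    set Gp := Gs ((Qm w X η).erase p) (Rr X) with hGp
    set V := Vx (Ql X η) ξ with hV
    set Vp := Vx ((Ql X η).erase p) ξ with hVp
    set e1 := min (eps / 100) (1 / 2) with he1'
    have he1a : e1 ≤ eps / 100 := min_le_left _ _
    have he1b : e1 ≤ 1 / 2 := min_le_right _ _
    have hG1' : 1 ≤ G := hG1.trans hG2
    have hprod : (1 - 2 / (w : ℝ)) * G * (Vp * (1 - e1)) ≤ Gp * (Vp * (1 - e1)) :=
      mul_le_mul_of_nonneg_right hG3 (mul_nonneg hL2 (by linarith))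
    have hw2' : (0 : ℝ) ≤ 2 / (w : ℝ) := by positivity
    have hkey : V - eps * η + eps * η / 10 ≤ (1 - 2 / (w : ℝ)) * (Vp * (1 - e1)) := by
      have h6 : (1 - 2 / (w : ℝ)) * (Vp * (1 - e1)) ≥ Vp - Vp * (2 / (w : ℝ) + e1) := by
        have : 0 ≤ 2 / (w : ℝ) * e1 * Vp := by positivity
        nlinarith
      have h7 : Vp * (2 / (w : ℝ) + e1) ≤ 21 * η * (eps / 50) := by
        apply mul_le_mul hVp2 (by linarith) (by positivity) (by positivity)
      have h8 : 0 < eps * η := mul_pos heps hη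
      nlinarith
    have h9 : G * (V - eps * η) + eps * η / 10 ≤ G * (V - eps * η + eps * η / 10) := by
      have h8 : 0 < eps * η := mul_pos heps hη
      nlinarith
    have h10 : G * (V - eps * η + eps * η / 10) ≤ G * ((1 - 2 / (w : ℝ)) * (Vp * (1 - e1))) :=
      mul_le_mul_of_nonneg_left hkey (by linarith)
    calc G * (V - eps * η) + eps * η / 10 ≤ G * ((1 - 2 / (w : ℝ)) * (Vp * (1 - e1))) := h9.trans h10
      _ = (1 - 2 / (w : ℝ)) * G * (Vp * (1 - e1)) := by ring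
      _ ≤ Gp * (Vp * (1 - e1)) := hprod
      _ = _ := by ring
  have hb : 2 * X ^ (0.5532 : ℝ) ≤ 2 * X / (primorial w : ℝ) * (eps * η / 10) := by
    have e1 : X ^ (0.5532 : ℝ) = X * X ^ (-(0.4468 : ℝ)) := by
      nth_rewrite 2 [← Real.rpow_one X]
      rw [← Real.rpow_add hX0]
      norm_num
    rw [e1]
    have h6 : X * X ^ (-(0.4468 : ℝ)) ≤ X * (eps * η / 10 / (primorial w : ℝ)) :=
      mul_le_mul_of_nonneg_left hgB hX0.le
    have h7 : 2 * X / (primorial w : ℝ) * (eps * η / 10) = 2 * (X * (eps * η / 10 / (primorial w : ℝ))) := by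
      ring
    rw [h7]
    linarith
  have hfin : 2 * X / (primorial w : ℝ) * (Gs (Qm w X η) (Rr X) * (Vx (Ql X η) ξ - eps * η) + eps * η / 10) ≤
      2 * X / (primorial w : ℝ) * (Gs ((Qm w X η).erase p) (Rr X) * Vx ((Ql X η).erase p) ξ -
        min (eps / 100) (1 / 2) * Gs ((Qm w X η).erase p) (Rr X) * Vx ((Ql X η).erase p) ξ) :=
    mul_le_mul_of_nonneg_left hmain (by positivity)
  rw [mul_add] at hfin
  rw [mul_sub] at hfin
  rw [hM1] at hEN
  linarith

end Pool.Agent.PT
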